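import Pool.Agent.N126.RC.Stm

/-! Part MAP of project RC (helper126): base change of ideal memberships. -/

set_option autoImplicit false

open MvPolynomial Pool.Agent.N126.RC

namespace Pool.Agent.N681.RC

theorem main_MAP : S_MAP := by
  intro K K' _ _ φ n W ι G F q c hc
  have hren : ∀ P : MvPolynomial (Fin (n + 1)) K,
      map φ (rename (Sum.inl : Fin (n + 1) → Fin (n + 1) ⊕ W) P) = rename Sum.inl (map φ P) :=
    fun P => map_rename φ Sum.inl P
  have hspan : ∀ (α : Type) (v : α → MvPolynomial (Fin (n + 1) ⊕ W) K),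
      (Ideal.span (Set.range v)).map (map φ : MvPolynomial (Fin (n + 1) ⊕ W) K →+* _) =
        Ideal.span (Set.range fun j => map φ (v j)) := by
    intro α v
    rw [Ideal.map_span, ← Set.range_comp]
    rfl
  constructor
  · rintro ⟨s, r, N, v, h1, h2⟩
    refine ⟨s, r, N, fun j => map φ (v j), fun i => ?_, fun j => ?_⟩
    · have h3 := Ideal.mem_map_of_mem (map φ : MvPolynomial (Fin (n + 1) ⊕ W) K →+* _) (h1 i)
      rw [Ideal.map_sup, Ideal.map_pow, hspan, hspan, map_mul, map_pow, map_X, hren] at h3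
      have h4 : (X (Sum.inl i) : MvPolynomial (Fin (n + 1) ⊕ W) K') ^ r *
          rename Sum.inl (C c * map φ F) = C c * (X (Sum.inl i) ^ r * rename Sum.inl (map φ F)) := by
        rw [map_mul, rename_C]; ring
      rw [h4]
      exact Ideal.mul_mem_left _ _ h3
    · have h3 := Ideal.mem_map_of_mem (map φ : MvPolynomial (Fin (n + 1) ⊕ W) K →+* _) (h2 j)
      rw [Ideal.map_sup, hspan, Ideal.map_span, Set.image_singleton, map_pow, hren] at h3
      have h4 : Ideal.span {rename Sum.inl (map φ F)} ≤ Ideal.span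
          {(rename Sum.inl (C c * map φ F) : MvPolynomial (Fin (n + 1) ⊕ W) K')} := by
        rw [Ideal.span_singleton_le_span_singleton]
        refine ⟨C c⁻¹, ?_⟩
        rw [map_mul, rename_C, mul_right_comm, ← C_mul, mul_inv_cancel₀ hc, C_1, one_mul]
      exact (sup_le_sup_right h4 _) h3
  · intro h w
    obtain ⟨p, hp, h1⟩ := h w
    refine ⟨p.map (map φ), hp.map _, ?_⟩
    have h3 := Ideal.mem_map_of_mem (map φ : MvPolynomial (Fin (n + 1) ⊕ W) K →+* _) h1
    rw [hspan, Polynomial.hom_eval₂, map_X] at h3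
    rw [Polynomial.eval₂_map]
    have h4 : ((map φ : MvPolynomial (Fin (n + 1) ⊕ W) K →+* MvPolynomial (Fin (n + 1) ⊕ W) K').comp
        (rename Sum.inl : MvPolynomial (Fin (n + 1)) K →ₐ[K] _).toRingHom) =
        ((rename Sum.inl : MvPolynomial (Fin (n + 1)) K' →ₐ[K'] _).toRingHom.comp (map φ)) := by
      apply RingHom.ext
      intro P
      exact hren P
    rw [h4] at h3
    exact h3

end Pool.Agent.N681.RC
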